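import Pool.Agent.Helper27.EM.Sheet

/-! EM (MP_9b3484_nt), row FIN: from LIM, CF and BAS with `n = 10 ^ 6` to the frozen statement
S17870. -/

set_option autoImplicit false

open Filter Finset

namespace Pool.Agent.Helper24.EM

open Pool.Agent.Helper27.EM

/-- a prime divisor of `nm n x` is at most `n + 1` -/
lemma nm_prime {n x p : ℕ} (hp : p.Prime) (h : p ∣ nm n x) : p ≤ n + 2 := by
  unfold nm at h
  have := hp.dvd_of_dvd_pow h
  have := Nat.le_of_dvd (Nat.succ_pos n) this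
  omega

/-- a prime divisor of `dn n x` is at most `n + 2` -/
lemma dn_prime {n x p : ℕ} (hn : 1 ≤ n) (hp : p.Prime) (h : p ∣ dn n x) : p ≤ n + 2 := by
  unfold dn at h
  rcases (hp.dvd_mul).1 h with h | h
  · have := Nat.le_of_dvd hn (hp.dvd_of_dvd_pow h)
    omega
  · exact Nat.le_of_dvd (Nat.succ_pos _) (hp.dvd_of_dvd_pow h)

/-- row FIN -/
theorem FIN (hLIM : ST_LIM) (hCF : ST_CF) (hBAS : ST_BAS) : ST_FIN := by
  intro hmain
  obtain ⟨ξ, x, hx, hr, w, q₀, hw⟩ := hLIM (10 ^ 6) le_rfl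
  obtain ⟨-, -, -, hcop, hdn, hmono⟩ := hBAS (10 ^ 6) (by norm_num)
  -- irrational
  have hirr : Irrational ξ := by
    rintro ⟨a, ha⟩
    have hd : 1 ≤ a.den := a.den_pos
    have h1 := hw (a.num * (q₀ + 1 : ℕ)) (a.den * (q₀ + 1)) (by nlinarith)
    have hq : (0 : ℝ) < ((a.den * (q₀ + 1) : ℕ) : ℝ) := by exact_mod_cast by positivity
    have h2 : ξ - ((a.num * (q₀ + 1 : ℕ) : ℤ) : ℝ) / ((a.den * (q₀ + 1) : ℕ) : ℝ) = 0 := by
      rw [← ha]
      have h3 : (a : ℝ) = (a.num : ℝ) / (a.den : ℝ) := by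
        exact_mod_cast (Rat.cast_def (K := ℝ) a)
      have h4 : (a.den : ℝ) ≠ 0 := by
        have : a.den ≠ 0 := a.den_nz
        exact_mod_cast this
      have h5 : ((q₀ : ℝ) + 1) ≠ 0 := by positivity
      rw [h3]
      push_cast
      field_simp
      ring
    rw [h2, abs_zero] at h1
    have : (0 : ℝ) < 1 / (((a.den * (q₀ + 1) : ℕ) : ℝ)) ^ w := by positivity
    linarith
  -- not a Liouville number
  have hnl : ¬ Liouville ξ := by
    intro hL
    have h1 := hL.frequently_exists_num w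
    obtain ⟨q, ⟨p, -, hlt⟩, hq⟩ := (h1.and_eventually (eventually_ge_atTop q₀)).exists
    have h2 := hw p q hq
    exact absurd hlt (not_lt.2 (by simpa using h2))
  -- the fractions
  refine hnl (hmain ξ hirr ⟨10 ^ 6 + 2, ?_⟩)
  have hdpos : ∀ k, 0 < dn (10 ^ 6) (x k) := fun k => (hdn (x k)).1
  set r : ℕ → ℚ := fun k => ((nm (10 ^ 6) (x k) : ℤ) : ℚ) / ((dn (10 ^ 6) (x k) : ℤ) : ℚ) with hrdef
  have hnum : ∀ k, (r k).num = (nm (10 ^ 6) (x k) : ℤ) := fun k =>
    Rat.num_div_eq_of_coprime (by exact_mod_cast hdpos k) (by simpa using hcop (x k))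
  have hden : ∀ k, ((r k).den : ℤ) = (dn (10 ^ 6) (x k) : ℤ) := fun k =>
    Rat.den_div_eq_of_coprime (by exact_mod_cast hdpos k) (by simpa using hcop (x k))
  have hden' : ∀ k, (r k).den = dn (10 ^ 6) (x k) := fun k => by exact_mod_cast hden k
  have hlt : ∀ k l, k < l → dn (10 ^ 6) (x k) < dn (10 ^ 6) (x l) := by
    intro k l hkl
    have h1 := hmono (x k) (x l) (hx hkl)
    have h2 := hdpos k
    omega
  have hinj : Function.Injective r := by
    intro k l hkl
    by_contra hne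
    have h1 : dn (10 ^ 6) (x k) = dn (10 ^ 6) (x l) := by rw [← hden' k, ← hden' l, hkl]
    rcases Nat.lt_or_gt_of_ne hne with h | h
    · exact absurd h1 (hlt k l h).ne
    · exact absurd h1 (hlt l k h).ne'
  have hreal : ∀ k, ((r k : ℚ) : ℝ) = rr (10 ^ 6) (x k) := by
    intro k
    rw [hrdef]
    unfold rr
    push_cast
    rfl
  have hgood : ∀ k, |ξ - r k| < 1 / (2 * ((r k).den : ℝ) ^ 2) := by
    intro k
    obtain ⟨h1, h2⟩ := hr k
    rw [hreal, hden', abs_of_pos (by linarith)]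
    exact h2
  intro N
  obtain ⟨k, m, hm, h1, h2⟩ := hCF ξ r hirr hinj hgood N
  refine ⟨m, hm, (r k).num, ((r k).den : ℤ), h1, by exact_mod_cast h2, ?_⟩
  intro p hp hdiv
  rcases hdiv with h | h
  · rw [hnum] at h
    exact nm_prime hp (by simpa using h)
  · rw [hden] at h
    exact dn_prime (by norm_num) hp (by simpa using h)

end Pool.Agent.Helper24.EM
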